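import Pool.Agent.helper32.EB.Defs2
import Pool.Agent.helper92.BT.PF
import Pool.Agent.helper97.BT.VB
import Pool.Agent.helper29.BT.PB
import Pool.Agent.helper17.BT.GE

open MeasureTheory ProbabilityTheory Filter Topology
open scoped ENNReal NNReal

namespace Pool.Agent.helper32.EB


/-- the constant of the supersolution -/
noncomputable def HA_a (C L : ℝ) : ℝ := (L + 1) / (2 * Real.pi) + |C| + 1

/-- one step: position and survival -/
noncomputable def HA_g (ε : ℝ) (x : ℂ) (s : ℂ × Bool) (y : ℂ) : ℂ × Bool :=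
  open Classical in (s.1 + y, if s.2 = true ∧ ε < ‖disp (s.1 + y - x)‖ then true else false)

/-- supersolution -/
noncomputable def HA_Φ (a : ℝ) (g : ℂ → ℝ≥0∞) (x : ℂ) (s : ℂ × Bool) : ℝ≥0∞ :=
  if s.2 = true then ENNReal.ofReal a - g (s.1 - x) else 0

theorem HA_meas_g (ε : ℝ) (x : ℂ) :
    Measurable (fun p : (ℂ × Bool) × ℂ => HA_g ε x p.1 p.2) := by
  unfold HA_g
  refine Measurable.prodMk (by fun_prop) ?_
  refine Measurable.ite ?_ measurable_const measurable_const
  have hm1 : Measurable (fun p : (ℂ × Bool) × ℂ => p.1.2) := measurable_snd.comp measurable_fst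
  have hm2 : Measurable (fun p : (ℂ × Bool) × ℂ => ‖disp (p.1.1 + p.2 - x)‖) := by
    have h0 : Measurable (fun p : (ℂ × Bool) × ℂ => p.1.1 + p.2 - x) := by fun_prop
    exact (disp_meas.comp h0).norm
  exact MeasurableSet.inter (measurableSet_eq_fun hm1 measurable_const)
    (measurableSet_lt measurable_const hm2)

theorem HA_meas_Φ (a : ℝ) {g : ℂ → ℝ≥0∞} (hg : Measurable g) (x : ℂ) :
    Measurable (HA_Φ a g x) := by
  unfold HA_Φ
  refine Measurable.ite ?_ ?_ measurable_const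
  · exact measurableSet_eq_fun measurable_snd measurable_const
  · exact measurable_const.sub (hg.comp (by fun_prop))

theorem HA_run_fst (ε : ℝ) (x : ℂ) (z0 : ℂ) (b : Bool) (y : ℕ → ℂ) (N : ℕ) :
    (run (HA_g ε x) (z0, b) y N).1 = walk z0 y N := by
  induction N with
  | zero => simp [run, walk]
  | succ N ih =>
    show (run (HA_g ε x) (z0, b) y N).1 + y N = _
    rw [ih]
    unfold walk
    rw [Finset.sum_range_succ, add_assoc]

theorem HA_run_snd (ε : ℝ) (x : ℂ) (z0 : ℂ) (y : ℕ → ℂ) (N : ℕ)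
    (h : ∀ k ≤ N, ε < ‖disp (walk z0 y k - x)‖) :
    (run (HA_g ε x) (z0, true) y N).2 = true := by
  induction N with
  | zero => simp [run]
  | succ N ih =>
    have h1 := ih (fun k hk => h k (by omega))
    have h2 := h (N + 1) le_rfl
    have h3 : (run (HA_g ε x) (z0, true) y N).1 + y N = walk z0 y (N + 1) := by
      rw [HA_run_fst]
      unfold walk
      rw [Finset.sum_range_succ, add_assoc]
    show (HA_g ε x (run (HA_g ε x) (z0, true) y N) (y N)).2 = true
    generalize run (HA_g ε x) (z0, true) y N = q at h1 h3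
    unfold HA_g
    rw [h3]
    simp [h1, h2]

theorem HA_meas_run {Ω : Type*} [MeasurableSpace Ω] {Y : ℕ → Ω → ℂ} (hY : ∀ k, Measurable (Y k))
    (ε : ℝ) (x : ℂ) (s0 : ℂ × Bool) (N : ℕ) :
    Measurable (fun ω => run (HA_g ε x) s0 (fun k => Y k ω) N) := by
  induction N with
  | zero => exact measurable_const
  | succ N ih =>
    have := (HA_meas_g ε x).comp (ih.prodMk (hY N))
    exact this

/-- the analytic one step inequality -/
theorem HA_real {a G0 I0 δ κ : ℝ} (ha : 1 ≤ a) (hG : 0 ≤ G0) (hδ : 0 ≤ δ)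
    (hκ1 : κ ≤ 1 / 4)
    (h : G0 + δ * (1 - κ) ≤ I0 + κ / 2 * δ) :
    a - I0 ≤ (1 - (1 - 3 / 2 * κ) * δ / a) * (a - G0) := by
  have h1 : (1 - 3 / 2 * κ) * δ / a * (a - G0) ≤ (1 - 3 / 2 * κ) * δ := by
    rw [div_mul_eq_mul_div, div_le_iff₀ (by linarith)]
    have : 0 ≤ (1 - 3 / 2 * κ) * δ := mul_nonneg (by linarith) hδ
    nlinarith
  nlinarith

/-- bound of `g` away from the lattice -/
theorem HA_gb {κ C : ℝ} {g : ℂ → ℝ≥0∞} (hg : GreenFn κ C g) (L : ℝ) (w : ℂ)
    (hw : Real.exp (-L) / 2 ≤ ‖disp w‖) : g w ≤ ENNReal.ofReal (HA_a C L - 1) := by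
  have hπ := Real.pi_gt_three
  have hp : 0 < ‖disp w‖ := lt_of_lt_of_le (by positivity) hw
  have hne : disp w ≠ 0 := norm_pos_iff.mp hp
  refine (hg.upper w hne).trans (ENNReal.ofReal_le_ofReal ?_)
  have h1 : Real.log (1 / ‖disp w‖) ≤ L + 1 := by
    rw [Real.log_div one_ne_zero hp.ne', Real.log_one]
    have h2 : Real.log (Real.exp (-L) / 2) ≤ Real.log ‖disp w‖ :=
      Real.log_le_log (by positivity) hw
    rw [Real.log_div (Real.exp_pos _).ne' two_ne_zero, Real.log_exp] at h2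
    have h3 := Real.log_two_lt_d9
    linarith
  have h4 : 1 / (2 * Real.pi) * Real.log (1 / ‖disp w‖) ≤ (L + 1) / (2 * Real.pi) := by
    rw [div_mul_eq_mul_div, one_mul]
    exact div_le_div_of_nonneg_right h1 (by positivity)
  have h5 := le_abs_self C
  unfold HA_a
  linarith

theorem HA_step {κ C : ℝ} (hκ : 0 < κ) (hκ1 : κ ≤ 1 / 4) {g : ℂ → ℝ≥0∞} (hg : GreenFn κ C g)
    (L : ℝ) (hL : 4 ≤ L) (hh : Real.exp (-(L / 4)) ≤ 1 / 2) (haL : HA_a C L ≤ L)
    (herr : (|C| + 2 * L + 4) * Real.exp (-(Real.exp (L / 2) / 8)) ≤ κ / 2 * Real.exp (-3 * L))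
    (x z : ℂ) (hz : Real.exp (-L) < ‖disp (z - x)‖) :
    ∫⁻ y, HA_Φ (HA_a C L) g x (HA_g (Real.exp (-L)) x (z, true) y) ∂(stepLaw (pδ L) (ph L)) ≤
      ENNReal.ofReal (1 - (1 - 3 / 2 * κ) * Real.exp (-3 * L) / HA_a C L) *
        HA_Φ (HA_a C L) g x (z, true) := by
  have hπ := Real.pi_gt_three
  have hδ0 : (0 : ℝ) < Real.exp (-3 * L) := Real.exp_pos _
  have hδ : 0 < pδ L := by
    unfold pδ; exact Real.toNNReal_pos.mpr hδ0
  have hδc : ((pδ L : ℝ≥0) : ℝ) = Real.exp (-3 * L) := by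
    unfold pδ; exact Real.coe_toNNReal _ hδ0.le
  have hhp : 0 < ph L := Real.exp_pos _
  have hrot := stepLaw_rot (pδ L) hδ (ph L) hhp
  have := hrot.prob
  set a := HA_a C L with ha
  have ha1 : 1 ≤ a := by
    rw [ha]; unfold HA_a
    have : 0 ≤ (L + 1) / (2 * Real.pi) := by positivity
    have := abs_nonneg C
    linarith
  have hεh : ph L ≤ Real.exp (-L) / 2 := by
    have : ph L = Real.exp (-L) * Real.exp (-(L / 4)) := by
      unfold ph; rw [← Real.exp_add]; congr 1; ring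
    rw [this]
    nlinarith [Real.exp_pos (-L)]
  have hgb : ∀ w, Real.exp (-L) / 2 ≤ ‖disp w‖ → g w ≤ ENNReal.ofReal (a - 1) :=
    HA_gb hg L
  -- the next points
  have hnext : ∀ᵐ y ∂(stepLaw (pδ L) (ph L)), g (z - x + y) ≤ ENNReal.ofReal (a - 1) := by
    filter_upwards [hrot.bdd] with y hy
    apply hgb
    have h1 := disp_norm_add (z - x + y) (-y)
    rw [add_neg_cancel_right, norm_neg] at h1
    linarith
  set I := ∫⁻ y, g (z - x + y) ∂(stepLaw (pδ L) (ph L)) with hI
  have hIle : I ≤ ENNReal.ofReal (a - 1) := by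
    calc I ≤ ∫⁻ _, ENNReal.ofReal (a - 1) ∂(stepLaw (pδ L) (ph L)) := lintegral_mono_ae hnext
      _ = ENNReal.ofReal (a - 1) := by simp
  have hIfin : I ≠ ⊤ := ne_top_of_le_ne_top ENNReal.ofReal_ne_top hIle
  have hg0 : g (z - x) ≤ ENNReal.ofReal (a - 1) := hgb _ (by linarith [Real.exp_pos (-L)])
  have hg0fin : g (z - x) ≠ ⊤ := ne_top_of_le_ne_top ENNReal.ofReal_ne_top hg0
  -- step 1: drop the killing
  have s1 : ∫⁻ y, HA_Φ a g x (HA_g (Real.exp (-L)) x (z, true) y) ∂(stepLaw (pδ L) (ph L)) ≤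
      ∫⁻ y, (ENNReal.ofReal a - g (z - x + y)) ∂(stepLaw (pδ L) (ph L)) := by
    refine lintegral_mono (fun y => ?_)
    unfold HA_Φ HA_g
    dsimp only
    have e : z + y - x = z - x + y := by ring
    rw [e]
    split_ifs <;> simp_all
  have hgm : Measurable (fun y => g (z - x + y)) := hg.meas.comp (by fun_prop)
  have s2 : ∫⁻ y, (ENNReal.ofReal a - g (z - x + y)) ∂(stepLaw (pδ L) (ph L)) =
      ENNReal.ofReal a - I := by
    rw [lintegral_sub hgm hIfin]
    · rw [lintegral_const, measure_univ, mul_one]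
    · filter_upwards [hnext] with y hy
      exact hy.trans (ENNReal.ofReal_le_ofReal (by linarith))
  -- the Green function inequality
  have h2δ : 2 * pδ L ≤ 1 := by
    rw [← NNReal.coe_le_coe]
    push_cast
    rw [hδc]
    have h1 : Real.exp (-3 * L) ≤ Real.exp (-(L / 4)) := Real.exp_le_exp.mpr (by linarith)
    linarith
  have hzsq : Real.exp (-L) ^ 2 ≤ ‖disp (z - x)‖ ^ 2 := by
    have := Real.exp_pos (-L)
    exact pow_le_pow_left₀ this.le hz.le 2
  have hexp2 : Real.exp (-L) ^ 2 = Real.exp (-2 * L) := by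
    rw [← Real.exp_nat_mul]; congr 1; push_cast; ring
  have hzδ : ((pδ L : ℝ≥0) : ℝ) ≤ ‖disp (z - x)‖ ^ 2 := by
    rw [hδc]
    refine le_trans ?_ hzsq
    rw [hexp2]
    exact Real.exp_le_exp.mpr (by linarith)
  have key := green_low_cut hg (pδ L) hδ h2δ (ph L) hhp (z - x) hzδ
  rw [hδc] at key
  set u := Real.exp (-(Real.exp (L / 2) / 8)) with hu
  have hu0 : 0 < u := Real.exp_pos _
  have e1 : ENNReal.ofReal (C * Real.exp (-‖disp (z - x)‖ ^ 2 / (8 * Real.exp (-3 * L)))) ≤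
      ENNReal.ofReal (|C| * u) := by
    apply ENNReal.ofReal_le_ofReal
    have h1 : Real.exp (-‖disp (z - x)‖ ^ 2 / (8 * Real.exp (-3 * L))) ≤ u := by
      apply Real.exp_le_exp.mpr
      rw [neg_div, neg_le_neg_iff]
      rw [div_le_div_iff₀ (by norm_num) (by positivity)]
      have h2 : Real.exp (L / 2) * Real.exp (-3 * L) ≤ Real.exp (-2 * L) := by
        rw [← Real.exp_add]
        exact Real.exp_le_exp.mpr (by linarith)
      rw [hexp2] at hzsq
      nlinarith
    have h3 : C * Real.exp (-‖disp (z - x)‖ ^ 2 / (8 * Real.exp (-3 * L))) ≤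
        |C| * Real.exp (-‖disp (z - x)‖ ^ 2 / (8 * Real.exp (-3 * L))) :=
      mul_le_mul_of_nonneg_right (le_abs_self C) (Real.exp_pos _).le
    exact h3.trans (mul_le_mul_of_nonneg_left h1 (abs_nonneg C))
  have e2 : ENNReal.ofReal (2 * Real.exp (-(ph L) ^ 2 / (8 * Real.exp (-3 * L)))) *
      (g (z - x) + ENNReal.ofReal (2 * Real.exp (-3 * L) * (1 + κ))) ≤
      ENNReal.ofReal (2 * u) * ENNReal.ofReal (L + 2) := by
    refine mul_le_mul' ?_ ?_
    · apply ENNReal.ofReal_le_ofReal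
      apply mul_le_mul_of_nonneg_left _ (by norm_num)
      apply Real.exp_le_exp.mpr
      rw [neg_div, neg_le_neg_iff]
      have h1 : (ph L) ^ 2 = Real.exp (L / 2) * Real.exp (-3 * L) := by
        unfold ph
        rw [← Real.exp_nat_mul, ← Real.exp_add]
        congr 1; push_cast; ring
      rw [h1, mul_div_mul_right _ _ (Real.exp_pos _).ne']
    · calc g (z - x) + ENNReal.ofReal (2 * Real.exp (-3 * L) * (1 + κ)) ≤
          ENNReal.ofReal (a - 1) + ENNReal.ofReal 2 := by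
            refine add_le_add hg0 (ENNReal.ofReal_le_ofReal ?_)
            have h1 : Real.exp (-3 * L) ≤ 1 / 2 := by
              have h1 : Real.exp (-3 * L) ≤ Real.exp (-(L / 4)) :=
                Real.exp_le_exp.mpr (by linarith)
              linarith
            nlinarith
        _ = ENNReal.ofReal (a - 1 + 2) := by
            rw [ENNReal.ofReal_add (by linarith) (by norm_num)]
        _ ≤ ENNReal.ofReal (L + 2) := ENNReal.ofReal_le_ofReal (by linarith)
  have e3 : g (z - x) + ENNReal.ofReal (Real.exp (-3 * L) * (1 - κ)) ≤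
      I + ENNReal.ofReal (κ / 2 * Real.exp (-3 * L)) := by
    calc g (z - x) + ENNReal.ofReal (Real.exp (-3 * L) * (1 - κ)) ≤ _ := key
      _ ≤ I + ENNReal.ofReal (|C| * u) + ENNReal.ofReal (2 * u) * ENNReal.ofReal (L + 2) :=
          add_le_add (add_le_add le_rfl e1) e2
      _ = I + ENNReal.ofReal ((|C| + 2 * L + 4) * u) := by
          rw [← ENNReal.ofReal_mul (by positivity), add_assoc,
            ← ENNReal.ofReal_add (by positivity) (mul_nonneg (by positivity) (by linarith))]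
          congr 2
          ring
      _ ≤ I + ENNReal.ofReal (κ / 2 * Real.exp (-3 * L)) :=
          add_le_add le_rfl (ENNReal.ofReal_le_ofReal herr)
  -- real numbers
  have hG0 : g (z - x) = ENNReal.ofReal (g (z - x)).toReal := (ENNReal.ofReal_toReal hg0fin).symm
  have hI0 : I = ENNReal.ofReal I.toReal := (ENNReal.ofReal_toReal hIfin).symm
  have hG0le : (g (z - x)).toReal ≤ a - 1 :=
    ENNReal.toReal_le_of_le_ofReal (by linarith) hg0
  have e4 : (g (z - x)).toReal + Real.exp (-3 * L) * (1 - κ) ≤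
      I.toReal + κ / 2 * Real.exp (-3 * L) := by
    rw [hG0, hI0, ← ENNReal.ofReal_add ENNReal.toReal_nonneg
      (mul_nonneg hδ0.le (by linarith)), ← ENNReal.ofReal_add ENNReal.toReal_nonneg
      (by positivity)] at e3
    exact (ENNReal.ofReal_le_ofReal_iff (add_nonneg ENNReal.toReal_nonneg (by positivity))).mp e3
  have e5 := HA_real ha1 ENNReal.toReal_nonneg hδ0.le hκ1 e4
  refine s1.trans ?_
  rw [s2]
  have e6 : HA_Φ a g x (z, true) = ENNReal.ofReal (a - (g (z - x)).toReal) := by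
    unfold HA_Φ
    simp only [if_true]
    rw [ENNReal.ofReal_sub _ ENNReal.toReal_nonneg, ← hG0]
  have e7 : ENNReal.ofReal a - I = ENNReal.ofReal (a - I.toReal) := by
    rw [ENNReal.ofReal_sub _ ENNReal.toReal_nonneg, ← hI0]
  rw [e6, e7]
  by_cases hc : 0 ≤ 1 - (1 - 3 / 2 * κ) * Real.exp (-3 * L) / a
  · rw [← ENNReal.ofReal_mul hc]
    exact ENNReal.ofReal_le_ofReal e5
  · exfalso
    apply hc
    have h1 : (1 - 3 / 2 * κ) * Real.exp (-3 * L) / a ≤ 1 := by
      rw [div_le_one (by linarith)]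
      have h1 : Real.exp (-3 * L) ≤ 1 / 2 := by
        have h1 : Real.exp (-3 * L) ≤ Real.exp (-(L / 4)) := Real.exp_le_exp.mpr (by linarith)
        linarith
      nlinarith
    linarith

theorem HA_iter {Ω : Type*} [MeasurableSpace Ω] {P : Measure Ω} [IsProbabilityMeasure P]
    {κ C : ℝ} (hκ : 0 < κ) (hκ1 : κ ≤ 1 / 4) {g : ℂ → ℝ≥0∞} (hg : GreenFn κ C g)
    (L : ℝ) (hL : 4 ≤ L) (hh : Real.exp (-(L / 4)) ≤ 1 / 2) (haL : HA_a C L ≤ L)
    (herr : (|C| + 2 * L + 4) * Real.exp (-(Real.exp (L / 2) / 8)) ≤ κ / 2 * Real.exp (-3 * L))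
    {Y : ℕ → Ω → ℂ} (hY : IID P (stepLaw (pδ L) (ph L)) Y) (z0 x : ℂ) (N : ℕ) :
    P {ω | ∀ k ≤ N, Real.exp (-L) < ‖disp (walk z0 (fun k => Y k ω) k - x)‖} ≤
      ENNReal.ofReal (1 - (1 - 3 / 2 * κ) * Real.exp (-3 * L) / HA_a C L) ^ N *
        ENNReal.ofReal (HA_a C L) := by
  have hδ0 : (0 : ℝ) < Real.exp (-3 * L) := Real.exp_pos _
  have hδ : 0 < pδ L := by
    unfold pδ; exact Real.toNNReal_pos.mpr hδ0
  have hhp : 0 < ph L := Real.exp_pos _
  have hrot := stepLaw_rot (pδ L) hδ (ph L) hhp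
  set a := HA_a C L with ha
  have ha1 : 1 ≤ a := by
    have hπ := Real.pi_gt_three
    rw [ha]; unfold HA_a
    have : 0 ≤ (L + 1) / (2 * Real.pi) := by positivity
    have := abs_nonneg C
    linarith
  by_cases hz0 : Real.exp (-L) < ‖disp (z0 - x)‖
  · have hit := iter_bound hrot hY (HA_g (Real.exp (-L)) x) (HA_meas_g _ x) (HA_Φ a g x)
      (HA_meas_Φ a hg.meas x) (fun s => s.2 = true → Real.exp (-L) < ‖disp (s.1 - x)‖)
      (by
        intro s _ y _
        unfold HA_g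
        dsimp only
        split_ifs with hc
        · intro _; exact hc.2
        · intro h; exact absurd h (by simp))
      (ENNReal.ofReal (1 - (1 - 3 / 2 * κ) * Real.exp (-3 * L) / a))
      (by
        rintro ⟨z, b⟩ hs
        cases b with
        | false =>
          have : ∀ y, HA_Φ a g x (HA_g (Real.exp (-L)) x (z, false) y) = 0 := by
            intro y
            unfold HA_Φ HA_g
            simp
          simp only [this, lintegral_zero]
          exact bot_le
        | true => exact HA_step hκ hκ1 hg L hL hh haL herr x z (hs rfl))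
      (z0, true) (fun _ => hz0) N
    have hsub : {ω | ∀ k ≤ N, Real.exp (-L) < ‖disp (walk z0 (fun k => Y k ω) k - x)‖} ⊆
        {ω | 1 ≤ HA_Φ a g x (run (HA_g (Real.exp (-L)) x) (z0, true) (fun k => Y k ω) N)} := by
      intro ω hω
      have h1 := HA_run_snd (Real.exp (-L)) x z0 (fun k => Y k ω) N hω
      have h2 := HA_run_fst (Real.exp (-L)) x z0 true (fun k => Y k ω) N
      have h3 := hω N le_rfl
      rw [Set.mem_ofPred_eq]
      rw [← h2] at h3
      generalize run (HA_g (Real.exp (-L)) x) (z0, true) (fun k => Y k ω) N = q at h1 h3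
      unfold HA_Φ
      rw [if_pos h1]
      have h4 := HA_gb hg L (q.1 - x) (by linarith [Real.exp_pos (-L)])
      rw [← ha] at h4
      have h5 : (1 : ℝ≥0∞) = ENNReal.ofReal a - ENNReal.ofReal (a - 1) := by
        rw [← ENNReal.ofReal_sub _ (by linarith)]
        simp
      rw [h5]
      exact tsub_le_tsub_left h4 _
    calc P {ω | ∀ k ≤ N, Real.exp (-L) < ‖disp (walk z0 (fun k => Y k ω) k - x)‖}
        ≤ P {ω | 1 ≤ HA_Φ a g x
            (run (HA_g (Real.exp (-L)) x) (z0, true) (fun k => Y k ω) N)} := measure_mono hsub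
      _ = 1 * P {ω | 1 ≤ HA_Φ a g x
            (run (HA_g (Real.exp (-L)) x) (z0, true) (fun k => Y k ω) N)} := (one_mul _).symm
      _ ≤ ∫⁻ ω, HA_Φ a g x
            (run (HA_g (Real.exp (-L)) x) (z0, true) (fun k => Y k ω) N) ∂P :=
          mul_meas_ge_le_lintegral
            ((HA_meas_Φ a hg.meas x).comp (HA_meas_run hY.meas _ x _ N)) 1
      _ ≤ _ := hit
      _ ≤ _ := by
          refine mul_le_mul' le_rfl ?_
          unfold HA_Φ
          simp only [if_true]
          exact tsub_le_self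
  · have : {ω | ∀ k ≤ N, Real.exp (-L) < ‖disp (walk z0 (fun k => Y k ω) k - x)‖} = ∅ := by
      apply Set.eq_empty_of_forall_notMem
      intro ω hω
      apply hz0
      have := hω 0 (Nat.zero_le _)
      simpa [walk] using this
    rw [this, measure_empty]
    exact bot_le

theorem HA_ev1 (C : ℝ) : ∀ᶠ L : ℝ in atTop, HA_a C L ≤ L := by
  have hπ := Real.pi_gt_three
  filter_upwards [eventually_ge_atTop (2 * (|C| + 2))] with L hL
  unfold HA_a
  have h0 : 0 ≤ L := by have := abs_nonneg C; linarith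
  have h1 : (L + 1) / (2 * Real.pi) ≤ (L + 1) / 2 :=
    div_le_div_of_nonneg_left (by linarith) (by norm_num) (by linarith)
  linarith

theorem HA_ev2 {κ : ℝ} (hκ : 0 < κ) (C : ℝ) : ∀ᶠ L : ℝ in atTop,
    (|C| + 2 * L + 4) * Real.exp (-(Real.exp (L / 2) / 8)) ≤ κ / 2 * Real.exp (-3 * L) := by
  -- in terms of `u = exp (L / 2)`
  have h1 : Tendsto (fun u : ℝ => (|C| + 4 + 4 * u) * u ^ 6 * Real.exp (-(1 / 8) * u)) atTop
      (𝓝 0) := by
    have e6 := (tendsto_rpow_mul_exp_neg_mul_atTop_nhds_zero 6 (1 / 8) (by norm_num)).const_mul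
      (|C| + 4)
    have e7 := (tendsto_rpow_mul_exp_neg_mul_atTop_nhds_zero 7 (1 / 8) (by norm_num)).const_mul 4
    have e := e6.add e7
    rw [mul_zero, mul_zero, add_zero] at e
    refine e.congr' ?_
    filter_upwards [eventually_gt_atTop 0] with u hu
    have r6 : u ^ (6 : ℝ) = u ^ 6 := by exact_mod_cast Real.rpow_natCast u 6
    have r7 : u ^ (7 : ℝ) = u ^ 7 := by exact_mod_cast Real.rpow_natCast u 7
    rw [r6, r7]
    ring
  have h2 : Tendsto (fun L : ℝ => Real.exp (L / 2)) atTop atTop :=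
    Real.tendsto_exp_atTop.comp (tendsto_id.atTop_div_const (by norm_num))
  have h3 := (h1.comp h2).eventually (ge_mem_nhds (show (0 : ℝ) < κ / 2 by linarith))
  filter_upwards [h3, eventually_ge_atTop 0] with L hL hL0
  simp only [Function.comp] at hL
  have hu : L / 2 ≤ Real.exp (L / 2) := by
    have := Real.add_one_le_exp (L / 2)
    linarith
  have h6 : Real.exp (L / 2) ^ 6 * Real.exp (-3 * L) = 1 := by
    rw [← Real.exp_nat_mul, ← Real.exp_add]
    rw [← Real.exp_zero]; congr 1; push_cast; ring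
  have hC := abs_nonneg C
  have e1 : Real.exp (-(Real.exp (L / 2) / 8)) = Real.exp (-(1 / 8) * Real.exp (L / 2)) := by
    congr 1; ring
  rw [e1]
  calc (|C| + 2 * L + 4) * Real.exp (-(1 / 8) * Real.exp (L / 2)) ≤
      (|C| + 4 + 4 * Real.exp (L / 2)) * Real.exp (-(1 / 8) * Real.exp (L / 2)) :=
        mul_le_mul_of_nonneg_right (by linarith) (Real.exp_pos _).le
    _ = (|C| + 4 + 4 * Real.exp (L / 2)) * Real.exp (L / 2) ^ 6 *
        Real.exp (-(1 / 8) * Real.exp (L / 2)) * Real.exp (-3 * L) := by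
        linear_combination (-((|C| + 4 + 4 * Real.exp (L / 2)) *
          Real.exp (-(1 / 8) * Real.exp (L / 2)))) * h6
    _ ≤ κ / 2 * Real.exp (-3 * L) := mul_le_mul_of_nonneg_right hL (Real.exp_pos _).le

theorem survive {Ω : Type*} [MeasurableSpace Ω] {P : Measure Ω} [IsProbabilityMeasure P]
    {κ C : ℝ} (hκ : 0 < κ) (hκ1 : κ ≤ 1 / 4) {g : ℂ → ℝ≥0∞} (hg : GreenFn κ C g) :
    ∀ᶠ L : ℝ in atTop, ∀ Y : ℕ → Ω → ℂ, IID P (stepLaw (pδ L) (ph L)) Y → ∀ (z0 x : ℂ) (N : ℕ),
      P {ω | ∀ k ≤ N, Real.exp (-L) < ‖disp (walk z0 (fun k => Y k ω) k - x)‖} ≤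
        ENNReal.ofReal (L * Real.exp (-(1 - 3 * κ) * (2 * Real.pi) * N * Real.exp (-3 * L) / L)) := by
  have hπ := Real.pi_gt_three
  have hC := abs_nonneg C
  filter_upwards [eventually_ge_atTop 4, HA_ev1 C, HA_ev2 hκ C,
    eventually_ge_atTop ((1 + 2 * Real.pi * (|C| + 1)) / (3 / 2 * κ))] with L hL haL herr hbig
  intro Y hY z0 x N
  have hh : Real.exp (-(L / 4)) ≤ 1 / 2 := by
    have h1 : Real.exp (-(L / 4)) ≤ Real.exp (-1) := Real.exp_le_exp.mpr (by linarith)
    have h2 := Real.exp_neg_one_lt_d9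
    linarith
  refine (HA_iter hκ hκ1 hg L hL hh haL herr hY z0 x N).trans ?_
  have hδ0 : (0 : ℝ) < Real.exp (-3 * L) := Real.exp_pos _
  have ha1 : 1 ≤ HA_a C L := by
    unfold HA_a
    have : 0 ≤ (L + 1) / (2 * Real.pi) := by positivity
    linarith
  have ha2 : HA_a C L * (2 * Real.pi) = L + 1 + 2 * Real.pi * (|C| + 1) := by
    unfold HA_a
    field_simp
    ring
  set a := HA_a C L with ha
  have hbig' : 1 + 2 * Real.pi * (|C| + 1) ≤ 3 / 2 * κ * L := by
    rw [div_le_iff₀ (by positivity)] at hbig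
    linarith
  have hrate : (1 - 3 * κ) * (2 * Real.pi) / L ≤ (1 - 3 / 2 * κ) / a := by
    rw [div_le_div_iff₀ (by linarith) (by linarith)]
    have h1 : (1 - 3 * κ) * (2 * Real.pi) * a = (1 - 3 * κ) * (L + (1 + 2 * Real.pi * (|C| + 1))) := by
      linear_combination (1 - 3 * κ) * ha2
    rw [h1]
    have h2 : (1 - 3 * κ) * (1 + 2 * Real.pi * (|C| + 1)) ≤ (1 - 3 * κ) * (3 / 2 * κ * L) :=
      mul_le_mul_of_nonneg_left hbig' (by linarith)
    have h3 : 0 ≤ κ * κ * L := by positivity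
    nlinarith
  have hc1 : (1 - 3 / 2 * κ) * Real.exp (-3 * L) / a ≤ 1 := by
    rw [div_le_one (by linarith)]
    have h1 : Real.exp (-3 * L) ≤ 1 := by
      rw [Real.exp_le_one_iff]; linarith
    nlinarith
  rw [← ENNReal.ofReal_pow (by linarith), ← ENNReal.ofReal_mul (pow_nonneg (by linarith) N)]
  apply ENNReal.ofReal_le_ofReal
  have h1 : (1 - (1 - 3 / 2 * κ) * Real.exp (-3 * L) / a) ^ N ≤
      Real.exp (-(1 - 3 * κ) * (2 * Real.pi) * N * Real.exp (-3 * L) / L) := by
    have h2 := Real.one_sub_le_exp_neg ((1 - 3 / 2 * κ) * Real.exp (-3 * L) / a)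
    calc (1 - (1 - 3 / 2 * κ) * Real.exp (-3 * L) / a) ^ N ≤
        (Real.exp (-((1 - 3 / 2 * κ) * Real.exp (-3 * L) / a))) ^ N :=
          pow_le_pow_left₀ (by linarith) h2 N
      _ = Real.exp (N * (-((1 - 3 / 2 * κ) * Real.exp (-3 * L) / a))) :=
          (Real.exp_nat_mul _ _).symm
      _ ≤ _ := by
          apply Real.exp_le_exp.mpr
          have h3 : (N : ℝ) * Real.exp (-3 * L) * ((1 - 3 * κ) * (2 * Real.pi) / L) ≤
              (N : ℝ) * Real.exp (-3 * L) * ((1 - 3 / 2 * κ) / a) :=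
            mul_le_mul_of_nonneg_left hrate (by positivity)
          have e1 : (N : ℝ) * (-((1 - 3 / 2 * κ) * Real.exp (-3 * L) / a)) =
              -((N : ℝ) * Real.exp (-3 * L) * ((1 - 3 / 2 * κ) / a)) := by ring
          have e2 : -(1 - 3 * κ) * (2 * Real.pi) * N * Real.exp (-3 * L) / L =
              -((N : ℝ) * Real.exp (-3 * L) * ((1 - 3 * κ) * (2 * Real.pi) / L)) := by ring
          rw [e1, e2]
          linarith
  calc (1 - (1 - 3 / 2 * κ) * Real.exp (-3 * L) / a) ^ N * a ≤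
      Real.exp (-(1 - 3 * κ) * (2 * Real.pi) * N * Real.exp (-3 * L) / L) * L :=
        mul_le_mul h1 haL (by linarith) (Real.exp_pos _).le
    _ = _ := mul_comm _ _

end Pool.Agent.helper32.EB
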